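import Pool.Agent.H69.LQ.Lib

/-!
# LQ: row H2
-/

set_option autoImplicit false

open MeasureTheory Metric Set
open scoped ENNReal
open Pool.Agent.H85.LK (E adm lam Ann)
open Pool.Agent.H69.LQ

namespace Pool.Agent.H30.LQ

theorem pf_H2 (_hMP : T_MP) (_hMO : T_MO) (hH6 : T_H6) : T_H2 := by
  classical
  intro N α hN hα h0 h1
  have hN0 : (0 : ℝ) < N := by
    have : 0 < N := by omega
    exact_mod_cast this
  let G : Fin N → Fin N → Fin N → Sp N → ℝ := fun i j k θ =>
    α θ * ((θ : E N) i * (θ : E N) j * (θ : E N) k)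
  let T : Fin N → Fin N → Fin N → ℝ := fun i j k => av (G i j k)
  have hG : ∀ i j k, BM (G i j k) := fun i j k =>
    hα.mul (((BM_coord i).mul (BM_coord j)).mul (BM_coord k))
  have hs1 : ∀ i j k, T i j k = T j i k := by
    intro i j k
    change av _ = av _
    congr 1
    funext θ
    change α θ * _ = α θ * _
    ring
  have hs2 : ∀ i j k, T i j k = T i k j := by
    intro i j k
    change av _ = av _
    congr 1
    funext θ
    change α θ * _ = α θ * _
    ring
  have htr : ∀ i, ∑ j, T i j j = 0 := by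
    intro i
    change ∑ j, av (G i j j) = 0
    rw [← av_sum Finset.univ fun j _ => hG i j j, ← h1 i]
    congr 1
    funext θ
    have h2 : ∑ j, G i j j θ = α θ * (θ : E N) i * ∑ j, (θ : E N) j ^ 2 := by
      rw [Finset.mul_sum]
      refine Finset.sum_congr rfl fun j _ => ?_
      change α θ * _ = _
      ring
    rw [h2, sum_sq_sp, mul_one]
  set S : ℝ := ∑ i, ∑ j, ∑ k, T i j k ^ 2 with hS
  have hS0 : 0 ≤ S := Finset.sum_nonneg fun i _ => Finset.sum_nonneg fun j _ =>
    Finset.sum_nonneg fun k _ => sq_nonneg _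
  let h : Sp N → ℝ := fun θ => ∑ i, ∑ j, ∑ k, T i j k *
    ((θ : E N) i * (θ : E N) j * (θ : E N) k)
  have hh : BM h := BM.sum _ fun i _ => BM.sum _ fun j _ => BM.sum _ fun k _ =>
    BM.const_mul _ (((BM_coord i).mul (BM_coord j)).mul (BM_coord k))
  have hT : av (fun θ => α θ * h θ) = S := by
    have e1 : (fun θ => α θ * h θ) = fun θ => ∑ i, ∑ j, ∑ k, T i j k * G i j k θ := by
      funext θ
      change α θ * ∑ i, ∑ j, ∑ k, T i j k * ((θ : E N) i * (θ : E N) j * (θ : E N) k) = _
      simp only [Finset.mul_sum]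
      refine Finset.sum_congr rfl fun i _ => Finset.sum_congr rfl fun j _ =>
        Finset.sum_congr rfl fun k _ => ?_
      change _ = T i j k * (α θ * _)
      ring
    rw [e1, av_sum _ fun i _ => BM.sum _ fun j _ => BM.sum _ fun k _ => (hG i j k).const_mul _]
    refine Finset.sum_congr rfl fun i _ => ?_
    rw [av_sum _ fun j _ => BM.sum _ fun k _ => (hG i j k).const_mul _]
    refine Finset.sum_congr rfl fun j _ => ?_
    rw [av_sum _ fun k _ => (hG i j k).const_mul _]
    refine Finset.sum_congr rfl fun k _ => ?_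
    rw [av_const_mul]
    change T i j k * T i j k = _
    ring
  have hcs := av_cs hα hh
  rw [hT] at hcs
  have h6 : av (fun θ => h θ ^ 2) = 6 / ((N : ℝ) * (N + 2) * (N + 4)) * S := hH6 N T hN hs1 hs2 htr
  rw [h6] at hcs
  have hA : 0 ≤ av (fun θ => α θ ^ 2) := av_sq_nonneg α
  set A := av (fun θ => α θ ^ 2) with hAdef
  have hSA : S ≤ 6 / ((N : ℝ) * (N + 2) * (N + 4)) * A := by
    rcases hS0.eq_or_lt with h7 | h7
    · rw [← h7]
      positivity
    · have h8 : S * S ≤ (6 / ((N : ℝ) * (N + 2) * (N + 4)) * A) * S := by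
        calc S * S = S ^ 2 := by ring
          _ ≤ A * (6 / ((N : ℝ) * (N + 2) * (N + 4)) * S) := hcs
          _ = _ := by ring
      exact le_of_mul_le_mul_right h8 h7
  have hn2 : ∀ i, n2 (fun θ => α θ * (θ : E N) i) =
      ((N : ℝ) * (N + 2) / 2) * ∑ j, ∑ k, T i j k ^ 2 := by
    intro i
    have hc : ∀ j k, c2 (fun θ => α θ * (θ : E N) i) j k =
        ((N : ℝ) * (N + 2) / 2) * T i j k := by
      intro j k
      unfold c2
      rw [h1 i, zero_div, ite_self, sub_zero]
      congr 1
      change av _ = av _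
      congr 1
      funext θ
      change _ = α θ * _
      ring
    unfold n2
    simp only [hc]
    rw [Finset.mul_sum, Finset.mul_sum]
    refine Finset.sum_congr rfl fun j _ => ?_
    rw [Finset.mul_sum, Finset.mul_sum]
    refine Finset.sum_congr rfl fun k _ => ?_
    field_simp
  simp only [hn2]
  rw [← Finset.mul_sum]
  calc ((N : ℝ) * (N + 2) / 2) * S ≤
      ((N : ℝ) * (N + 2) / 2) * (6 / ((N : ℝ) * (N + 2) * (N + 4)) * A) :=
        mul_le_mul_of_nonneg_left hSA (by positivity)
    _ = 3 / ((N : ℝ) + 4) * A := by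
        field_simp
        ring

end Pool.Agent.H30.LQ
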