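import Pool.Agent.H69.LQ.Lib

/-!
# LQ: row M0
-/

set_option autoImplicit false

open MeasureTheory Metric Set Filter Topology
open scoped ENNReal
open Pool.Agent.H85.LK (E adm lam Ann)
open Pool.Agent.H69.LQ

namespace Pool.Agent.H30.LQ

/-- `f ^ 2 / ψ` tends to `0` at a common zero where `ψ` has a simple zero -/
theorem sq_div_tendsto {f ψ : ℝ → ℝ} {f' ψ' s : ℝ} (hf : HasDerivAt f f' s) (hf0 : f s = 0)
    (hψ : HasDerivAt ψ ψ' s) (hψ0 : ψ s = 0) (hne : ψ' ≠ 0) :
    Tendsto (fun r => f r ^ 2 / ψ r) (𝓝[≠] s) (𝓝 0) := by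
  have h1 := hf.tendsto_slope
  have h2 := hψ.tendsto_slope
  have h3 : Tendsto f (𝓝[≠] s) (𝓝 0) := by
    have := hf.continuousAt.tendsto
    rw [hf0] at this
    exact this.mono_left nhdsWithin_le_nhds
  have h4 := (h1.mul h3).div h2 hne
  rw [mul_zero, zero_div] at h4
  refine h4.congr' ?_
  filter_upwards [self_mem_nhdsWithin] with r hr
  have hr' : r - s ≠ 0 := sub_ne_zero.2 hr
  change slope f s r * f r / slope ψ s r = f r ^ 2 / ψ r
  rw [slope_def_field, slope_def_field, hf0, hψ0, sub_zero, sub_zero]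
  by_cases hz : ψ r = 0
  · rw [hz]
    simp
  · field_simp

theorem pf_M0 (hPH : T_PH) (hPV : T_PV) (hJC : T_JC) : T_M0 := by
  intro N L r₁ μ a f f' hN hFz hZ hμ hra hμa hC hf
  obtain ⟨hph1, hph2, -⟩ := hPH N L hN
  obtain ⟨-, -, -, -, -, -, hneg⟩ := hPV N L hN hFz
  set s := r₁ / μ with hs
  have hs0 : 0 < s := div_pos hZ.pos hμ
  have hμs : μ * s = r₁ := by
    rw [hs]
    field_simp
  have hcph : Continuous (ph N L 0) := (hph2 0).1.continuous
  have hcdph : Continuous (dph N L 0) := (hph2 0).2.continuous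
  -- the integrand
  let F : ℝ → ℝ := fun r => r ^ (N - 1) * (f' r ^ 2 - μ ^ 2 * L * f r ^ 2)
  have hfc : Continuous f := continuous_iff_continuousAt.2 fun x => (hC.1 x).continuousAt
  have hF : Continuous F := by
    have := hC.2
    fun_prop
  have hFi : ∀ x y : ℝ, IntervalIntegrable F volume x y := fun x y => hF.intervalIntegrable x y
  -- Jacobi
  have hJ : ∀ ε r : ℝ, 0 < ε → ε ≤ r → (∀ x, ε ≤ x → x ≤ r → ph N L 0 (μ * x) ≠ 0) →
      dd N L 0 μ r * f r ^ 2 - dd N L 0 μ ε * f ε ^ 2 ≤ ∫ x in ε..r, F x := by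
    intro ε r h1 h2 h3
    have h4 := hJC N 0 L μ ε r f f' hN hμ h1 h2 h3 hC
    refine h4.trans (le_of_eq ?_)
    refine intervalIntegral.integral_congr fun x _ => ?_
    change x ^ (N - 1) * (f' x ^ 2 + (((0 : ℕ) : ℝ) * (((0 : ℕ) : ℝ) + N - 2) / x ^ 2 -
      μ ^ 2 * L) * f x ^ 2) = x ^ (N - 1) * (f' x ^ 2 - μ ^ 2 * L * f x ^ 2)
    rw [Nat.cast_zero, zero_mul, zero_div]
    ring
  -- the boundary term at `s`
  have hψ : HasDerivAt (fun r => ph N L 0 (μ * r)) (dph N L 0 r₁ * μ) s := by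
    have h1 : HasDerivAt (ph N L 0) (dph N L 0 r₁) (μ * s) := by
      rw [hμs]
      exact hph1 0 r₁
    have h2 : HasDerivAt (fun r : ℝ => μ * r) μ s := by
      simpa using (hasDerivAt_id s).const_mul μ
    exact h1.comp s h2
  have hdneg : dph N L 0 r₁ < 0 := hneg r₁ hZ.pos hZ.lt
  have hbd : Tendsto (fun r => dd N L 0 μ r * f r ^ 2) (𝓝[≠] s) (𝓝 0) := by
    have h1 := sq_div_tendsto (hC.1 s) hf hψ (by rw [hμs]; exact hZ.zero)
      (mul_ne_zero hdneg.ne hμ.ne')
    have h2 : Tendsto (fun r : ℝ => r ^ (N - 1) * (μ * dph N L 0 (μ * r))) (𝓝[≠] s)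
        (𝓝 (s ^ (N - 1) * (μ * dph N L 0 (μ * s)))) := by
      have : Continuous fun r : ℝ => r ^ (N - 1) * (μ * dph N L 0 (μ * r)) := by fun_prop
      exact this.continuousAt.tendsto.mono_left nhdsWithin_le_nhds
    have h3 := h2.mul h1
    rw [mul_zero] at h3
    refine h3.congr fun r => ?_
    unfold dd
    ring
  -- the boundary term at `0`
  have hb0 : Tendsto (fun r => dd N L 0 μ r * f r ^ 2) (𝓝[>] (0 : ℝ)) (𝓝 0) := by
    have h0 : ph N L 0 (μ * 0) ≠ 0 := by
      rw [mul_zero]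
      exact (hZ.pos' 0 le_rfl hZ.pos).ne'
    have h1 : ContinuousAt (fun r => dd N L 0 μ r * f r ^ 2) 0 := by
      unfold dd
      refine ContinuousAt.mul (ContinuousAt.mul ?_ (ContinuousAt.div ?_ ?_ h0)) ?_
      · exact (continuous_pow (N - 1)).continuousAt
      · exact (continuous_const.mul (hcdph.comp (continuous_const.mul continuous_id))).continuousAt
      · exact (hcph.comp (continuous_const.mul continuous_id)).continuousAt
      · exact (hfc.pow 2).continuousAt
    have h2 : dd N L 0 μ 0 * f 0 ^ 2 = 0 := by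
      unfold dd
      rw [zero_pow (by omega : N - 1 ≠ 0)]
      ring
    have h3 := h1.tendsto
    rw [h2] at h3
    exact h3.mono_left nhdsWithin_le_nhds
  -- the inner part
  have hin : ∀ ε, 0 < ε → ε < s → 0 - dd N L 0 μ ε * f ε ^ 2 ≤ ∫ x in ε..s, F x := by
    intro ε hε hεs
    have h1 : Tendsto (fun r => dd N L 0 μ r * f r ^ 2 - dd N L 0 μ ε * f ε ^ 2) (𝓝[<] s)
        (𝓝 (0 - dd N L 0 μ ε * f ε ^ 2)) :=
      (hbd.mono_left (nhdsWithin_mono s fun x hx => ne_of_lt hx)).sub tendsto_const_nhds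
    have h2 : Tendsto (fun r => ∫ x in ε..r, F x) (𝓝[<] s) (𝓝 (∫ x in ε..s, F x)) := by
      have : Continuous fun r => ∫ x in ε..r, F x :=
        intervalIntegral.continuous_primitive (fun x y => hFi x y) ε
      exact this.continuousAt.tendsto.mono_left nhdsWithin_le_nhds
    refine le_of_tendsto_of_tendsto h1 h2 ?_
    filter_upwards [Ioo_mem_nhdsLT hεs] with r hr
    refine hJ ε r hε hr.1.le fun x hx1 hx2 => ?_
    refine (hZ.pos' (μ * x) (mul_nonneg hμ.le (hε.le.trans hx1)) ?_).ne'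
    rw [← hμs]
    exact mul_lt_mul_of_pos_left (lt_of_le_of_lt hx2 hr.2) hμ
  have hI1 : 0 ≤ ∫ x in (0 : ℝ)..s, F x := by
    have h1 : Tendsto (fun ε => 0 - dd N L 0 μ ε * f ε ^ 2) (𝓝[>] (0 : ℝ)) (𝓝 (0 - 0)) :=
      tendsto_const_nhds.sub hb0
    have h2 : Tendsto (fun ε => ∫ x in ε..s, F x) (𝓝[>] (0 : ℝ)) (𝓝 (∫ x in (0 : ℝ)..s, F x)) := by
      have h3 : Continuous fun ε => ∫ x in s..ε, F x :=
        intervalIntegral.continuous_primitive (fun x y => hFi x y) s
      have h4 : (fun ε => ∫ x in ε..s, F x) = fun ε => -∫ x in s..ε, F x := by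
        funext ε
        rw [intervalIntegral.integral_symm]
      rw [h4, intervalIntegral.integral_symm s 0]
      exact (h3.neg).continuousAt.tendsto.mono_left nhdsWithin_le_nhds
    have h5 := le_of_tendsto_of_tendsto h1 h2 (by
      filter_upwards [Ioo_mem_nhdsGT hs0] with ε hε
      exact hin ε hε.1 hε.2)
    simpa using h5
  -- the outer part
  have hI2 : 0 ≤ ∫ x in s..a, F x := by
    have hda : 0 ≤ dd N L 0 μ a * f a ^ 2 := by
      have ha : 0 < a := hs0.trans hra
      have h1 : ph N L 0 (μ * a) < 0 := by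
        refine hZ.neg _ ?_ hμa.le
        rw [← hμs]
        exact mul_lt_mul_of_pos_left hra hμ
      have h2 : dph N L 0 (μ * a) < 0 := hneg _ (mul_pos hμ ha) hμa
      unfold dd
      have h3 : 0 ≤ μ * dph N L 0 (μ * a) / ph N L 0 (μ * a) :=
        div_nonneg_of_nonpos (mul_nonpos_of_nonneg_of_nonpos hμ.le h2.le) h1.le
      positivity
    have h1 : Tendsto (fun r => dd N L 0 μ a * f a ^ 2 - dd N L 0 μ r * f r ^ 2) (𝓝[>] s)
        (𝓝 (dd N L 0 μ a * f a ^ 2 - 0)) :=
      tendsto_const_nhds.sub (hbd.mono_left (nhdsWithin_mono s fun x hx => ne_of_gt hx))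
    have h2 : Tendsto (fun ε => ∫ x in ε..a, F x) (𝓝[>] s) (𝓝 (∫ x in s..a, F x)) := by
      have h3 : Continuous fun ε => ∫ x in a..ε, F x :=
        intervalIntegral.continuous_primitive (fun x y => hFi x y) a
      have h4 : (fun ε => ∫ x in ε..a, F x) = fun ε => -∫ x in a..ε, F x := by
        funext ε
        rw [intervalIntegral.integral_symm]
      rw [h4, intervalIntegral.integral_symm a s]
      exact (h3.neg).continuousAt.tendsto.mono_left nhdsWithin_le_nhds
    have h5 := le_of_tendsto_of_tendsto h1 h2 (by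
      filter_upwards [Ioo_mem_nhdsGT hra] with r hr
      refine hJ r a (hs0.trans hr.1) hr.2.le fun x hx1 hx2 => ?_
      refine (hZ.neg (μ * x) ?_ ?_).ne
      · rw [← hμs]
        exact mul_lt_mul_of_pos_left (lt_of_lt_of_le hr.1 hx1) hμ
      · exact (mul_le_mul_of_nonneg_left hx2 hμ.le).trans hμa.le)
    rw [sub_zero] at h5
    exact hda.trans h5
  have h6 := intervalIntegral.integral_add_adjacent_intervals (hFi 0 s) (hFi s a)
  change 0 ≤ ∫ r in (0 : ℝ)..a, F r
  rw [← h6]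
  exact add_nonneg hI1 hI2

end Pool.Agent.H30.LQ
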