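import Pool.Agent.H69.LQ.Lib

/-!
# LQ: row ST
-/

set_option autoImplicit false

open MeasureTheory Metric Set
open scoped ENNReal
open Pool.Agent.H85.LK (E adm lam Ann)
open Pool.Agent.H69.LQ

namespace Pool.Agent.H30.LQ

theorem fderiv_coord_mul {N : ℕ} {g : E N → ℝ} (hg : Differentiable ℝ g) (j : Fin N) (x v : E N) :
    fderiv ℝ (fun x : E N => x j * g x) x v = v j * g x + x j * fderiv ℝ g x v := by
  have h1 : HasFDerivAt (fun x : E N => x j) (EuclideanSpace.proj j : E N →L[ℝ] ℝ) x :=
    (EuclideanSpace.proj j : E N →L[ℝ] ℝ).hasFDerivAt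
  have h2 : HasFDerivAt (fun x : E N => x j * g x)
      (x j • fderiv ℝ g x + g x • (EuclideanSpace.proj j : E N →L[ℝ] ℝ)) x :=
    h1.mul (hg x).hasFDerivAt
  rw [h2.fderiv]
  change x j * fderiv ℝ g x v + g x * v j = _
  ring

theorem fderiv_self_sum {N : ℕ} (g : E N → ℝ) (x : E N) :
    fderiv ℝ g x x = ∑ j, x j * fderiv ℝ g x (EuclideanSpace.single j 1) := by
  have h : x = ∑ j, x j • (EuclideanSpace.single j (1 : ℝ) : E N) := by
    have := (EuclideanSpace.basisFun (Fin N) ℝ).sum_repr x
    simpa using this.symm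
  conv_lhs => rw [h]
  rw [map_sum]
  refine Finset.sum_congr rfl fun j _ => ?_
  rw [map_smul, smul_eq_mul, ← h]

theorem pf_ST (hAN : T_AN) : T_ST := by
  classical
  intro N g k i hN hg hk
  have hgd : Differentiable ℝ g := hg.differentiable (by simp)
  have hgc : Continuous g := hg.continuous
  have hfc : ∀ v : E N, Continuous fun θ : Sp N => fderiv ℝ g (θ : E N) v := by
    intro v
    have h1 : Continuous (fderiv ℝ g) := hg.continuous_fderiv (by simp)
    exact (h1.clm_apply continuous_const).comp continuous_subtype_val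
  have key : ∀ θ : Sp N, ∑ j, LL i j (fun x : E N => x j * g x) (θ : E N) =
      (N + k - 1) * ((θ : E N) i * g (θ : E N)) -
        fderiv ℝ g (θ : E N) (EuclideanSpace.single i 1) := by
    intro θ
    have h1 : ∀ j, LL i j (fun x : E N => x j * g x) (θ : E N) =
        (θ : E N) i * g (θ : E N) +
        (θ : E N) i * ((θ : E N) j * fderiv ℝ g (θ : E N) (EuclideanSpace.single j 1)) -
        (if j = i then (θ : E N) j * g (θ : E N) else 0) -
        (θ : E N) j ^ 2 * fderiv ℝ g (θ : E N) (EuclideanSpace.single i 1) := by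
      intro j
      unfold LL
      rw [fderiv_coord_mul hgd, fderiv_coord_mul hgd]
      simp only [PiLp.single_apply, if_true]
      split_ifs <;> ring
    have e1 : ∑ j, (θ : E N) i * ((θ : E N) j *
        fderiv ℝ g (θ : E N) (EuclideanSpace.single j 1)) =
        (θ : E N) i * (k * g (θ : E N)) := by
      rw [← hk, fderiv_self_sum, Finset.mul_sum]
    have e2 : ∑ j, (θ : E N) j ^ 2 * fderiv ℝ g (θ : E N) (EuclideanSpace.single i 1) =
        fderiv ℝ g (θ : E N) (EuclideanSpace.single i 1) := by
      rw [← Finset.sum_mul, sum_sq_sp, one_mul]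
    simp only [h1]
    rw [Finset.sum_sub_distrib, Finset.sum_sub_distrib, Finset.sum_add_distrib, e1,
      e2, Finset.sum_ite_eq' Finset.univ i,
      Finset.sum_const, Finset.card_univ, Fintype.card_fin, nsmul_eq_mul]
    simp only [Finset.mem_univ, if_true]
    ring
  have hsm : ∀ j : Fin N, ContDiff ℝ (⊤ : ℕ∞) fun x : E N => x j * g x := by
    intro j
    exact ((EuclideanSpace.proj j : E N →L[ℝ] ℝ).contDiff).mul hg
  have hBM : ∀ j ∈ (Finset.univ : Finset (Fin N)),
      BM fun θ : Sp N => LL i j (fun x : E N => x j * g x) (θ : E N) := by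
    intro j _
    apply BM_cont
    unfold LL
    have h1 : ∀ v : E N, Continuous fun θ : Sp N =>
        fderiv ℝ (fun x : E N => x j * g x) (θ : E N) v := by
      intro v
      have h1 : Continuous (fderiv ℝ fun x : E N => x j * g x) :=
        (hsm j).continuous_fderiv (by simp)
      exact (h1.clm_apply continuous_const).comp continuous_subtype_val
    have h2 : ∀ l : Fin N, Continuous fun θ : Sp N => (θ : E N) l := fun l => by fun_prop
    exact ((h2 i).mul (h1 _)).sub ((h2 j).mul (h1 _))
  have h2 : av (fun θ : Sp N => ∑ j, LL i j (fun x : E N => x j * g x) (θ : E N)) = 0 := by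
    rw [av_sum _ hBM]
    exact Finset.sum_eq_zero fun j _ => hAN N _ i j hN (hsm j)
  simp only [key] at h2
  have h3 : BM fun θ : Sp N => (N + k - 1) * ((θ : E N) i * g (θ : E N)) :=
    ((BM_coord i).mul (BM_cont (hgc.comp continuous_subtype_val))).const_mul _
  rw [av_sub h3 (BM_cont (hfc _)), av_const_mul] at h2
  linarith

end Pool.Agent.H30.LQ
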